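import Pool.Agent.Helper6.Kak.Scale
import Pool.Agent.Helper75.KakHB
import Pool.Agent.Helper75.KakHJ
import Pool.Agent.Helper90.Kak.Col
import Pool.Agent.Helper90.Kak.HBase

/-!
# Cost `c6`: the point of `l1` at height `R` from the point of `l0` at height `S`, the form `w`, and
the heights `S, R, tw`
-/

set_option autoImplicit false

namespace Pool.Agent.Helper47.Kak

open Finset Pool.Agent.Helper8.Kak Pool.Agent.Helper6.Kak Pool.Agent.Helper90.Kak
open Pool.Agent.Helper89.KakGeo hiding Ex_mono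

section real

variable {M : ℕ}

/-- the height of the moved form is not close to `s` -/
theorem dn_sub_mv (r s t t' : Fin M) :
    dn M (((s : ℕ) : ℤ) - (((t' : ℕ) : ℤ) + mv (((r : ℕ) : ℤ) - ((t : ℕ) : ℤ)) s t t')) ≤
      ld s t' + ld r s + Real.log 3 := by
  have hM1 := one_le_M s
  have hM0 : (0 : ℝ) < M := by linarith
  have a1 := one_le_inv_dst s t'
  have a2 := one_le_inv_dst r s
  have p1 := dst_pos s t'
  have p2 := dst_pos r s
  set c : ℤ := (((s : ℕ) : ℤ) - (((t' : ℕ) : ℤ) + mv (((r : ℕ) : ℤ) - ((t : ℕ) : ℤ)) s t t'))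
    with hc
  have key : (M : ℝ) / max |(c : ℝ)| 1 ≤ 2 * ((1 / dst s t') * (1 / dst r s)) := by
    have hpos : (0 : ℝ) < max |(c : ℝ)| 1 := by positivity
    have hle : (M : ℝ) / max |(c : ℝ)| 1 ≤ M := by
      apply div_le_self hM0.le (le_max_right _ _)
    by_cases h1 : s = t'
    · have : 1 / dst s t' = M := by rw [← h1, inv_dst_self]
      rw [this]
      nlinarith
    by_cases h2 : r = s
    · have : 1 / dst r s = M := by rw [h2, inv_dst_self]
      rw [this]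
      nlinarith
    by_cases h3 : s = t
    · have e0 : mv (((r : ℕ) : ℤ) - ((t : ℕ) : ℤ)) s t t' = 0 := by
        unfold mv
        rw [h3, sub_self, div_zero, mul_zero, Int.floor_zero]
      have e1 : (M : ℝ) / max |(c : ℝ)| 1 = 1 / dst s t' := by
        rw [hc, e0, add_zero, dst_eq_int, one_div_div]
      rw [e1]
      nlinarith
    · have hst : ht s - ht t ≠ 0 := sub_ne_zero.2 (ht_ne_of_ne h3)
      set y : ℝ := (((r : ℕ) : ℤ) - ((t : ℕ) : ℤ) : ℤ) * ((ht s - ht t') / (ht s - ht t)) with hy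
      have e1 : -c = ⌊y - ((((s : ℕ) : ℤ) - ((t' : ℕ) : ℤ) : ℤ) : ℝ)⌋ := by
        rw [Int.floor_sub_intCast, hc]
        unfold mv
        rw [← hy]
        ring
      have e2 : y - ((((s : ℕ) : ℤ) - ((t' : ℕ) : ℤ) : ℤ) : ℝ)
          = M * ((ht s - ht t') * (ht r - ht s) / (ht s - ht t)) := by
        have er : ((r : ℕ) : ℝ) = M * ht r := by unfold ht; field_simp
        have es : ((s : ℕ) : ℝ) = M * ht s := by unfold ht; field_simp
        have et : ((t : ℕ) : ℝ) = M * ht t := by unfold ht; field_simp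
        have et' : ((t' : ℕ) : ℝ) = M * ht t' := by unfold ht; field_simp
        rw [hy]
        push_cast
        rw [er, es, et, et']
        field_simp
        ring
      have h4 := le_abs_floor (y - ((((s : ℕ) : ℤ) - ((t' : ℕ) : ℤ) : ℤ) : ℝ))
      rw [← e1, Int.cast_neg, abs_neg, e2, abs_mul, abs_of_pos hM0, abs_div, abs_mul,
        ← dst_eq_of_ne h1, ← dst_eq_of_ne h2, ← dst_eq_of_ne h3] at h4
      have p3 := dst_pos s t
      have p4 := dst_le_one s t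
      have h5 : dst s t' * dst r s ≤ dst s t' * dst r s / dst s t := by
        rw [le_div_iff₀ p3]
        exact mul_le_of_le_one_right (by positivity) p4
      rw [div_le_iff₀ hpos]
      have h6 : M * (dst s t' * dst r s) / 2 ≤ max |(c : ℝ)| 1 := by
        have := mul_le_mul_of_nonneg_left h5 hM0.le
        linarith
      have h7 : 2 * ((1 / dst s t') * (1 / dst r s)) * (M * (dst s t' * dst r s) / 2) = M := by
        field_simp
      calc (M : ℝ) = 2 * ((1 / dst s t') * (1 / dst r s)) * (M * (dst s t' * dst r s) / 2) :=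
            h7.symm
        _ ≤ _ := mul_le_mul_of_nonneg_left h6 (by positivity)
  unfold dn ld
  rw [← Real.log_mul (by positivity) (by positivity), ← Real.log_mul (by positivity) (by norm_num)]
  refine Real.log_le_log (by positivity) ?_
  have h8 : 1 ≤ (1 / dst s t') * (1 / dst r s) := one_le_mul_of_one_le_of_one_le a1 a2
  linarith

/-- the pointwise estimate -/
theorem back_real {δ : ℝ} (hδ : 0 < δ) (hδ1 : δ ≤ 1) (hM : 1 ≤ δ * M) (s t t' : Fin M)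
    (c : ℤ) {X V X2 V2 W A' W' : ℝ} (hX : |X| ≤ 1) (hV : |V| ≤ 1) (hX2 : |X2| ≤ 1)
    (hV2 : |V2| ≤ 1) (hW : |W| ≤ 1) (hF : |X2 + ht t * V2 + (c : ℝ) / M * W| ≤ 2)
    (hJ : |(X + ht t * V) - (X2 + ht t * V2)| ≤ δ)
    (hA : |(X + ht s * V) - A'| ≤ δ)
    (hWW : |(X + ht t' * V + ((mv c s t t' : ℤ) : ℝ) / M * W) - W'| ≤ δ)
    (hr : |((((t : ℕ) : ℤ) + c : ℤ) : ℝ) / M - ht s| ≤ 1) :
    |(X2 + ht t * V2 + (c : ℝ) / M * W)
      - (if ((s : ℕ) : ℤ) = ((t' : ℕ) : ℤ) + mv c s t t' then 0 else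
        A' + (W' - A') * ((((((t : ℕ) : ℤ) + c : ℤ) : ℝ) / M - ht s)
          / (((((t' : ℕ) : ℤ) + mv c s t t' : ℤ) : ℝ) / M - ht s)))|
    ≤ 10 * (((1 / dst s t) * ((1 + M / max |((((s : ℕ) : ℤ) - (((t : ℕ) : ℤ) + c) : ℤ) : ℝ)| 1)
      * ((1 + |((((t : ℕ) : ℤ) + c : ℤ) : ℝ)| / M)
        * (1 + |((((t' : ℕ) : ℤ) + mv c s t t' : ℤ) : ℝ)| / M))))
      * (1 + M / max |((((s : ℕ) : ℤ) - (((t' : ℕ) : ℤ) + mv c s t t') : ℤ) : ℝ)| 1)) * δ := by
  have hM1 := one_le_M s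
  have hM0 : (0 : ℝ) < M := by linarith
  have h := col_real hδ hδ1 hM s t t' c hX hV hX2 hV2 hW hJ hA
    (F' := X2 + ht t * V2 + (c : ℝ) / M * W) (by rw [sub_self, abs_zero]; exact hδ.le)
  set F := X2 + ht t * V2 + (c : ℝ) / M * W with hFdef
  set g := mv c s t t' with hg
  set D := (1 / dst s t) * ((1 + M / max |((((s : ℕ) : ℤ) - (((t : ℕ) : ℤ) + c) : ℤ) : ℝ)| 1)
      * ((1 + |((((t : ℕ) : ℤ) + c : ℤ) : ℝ)| / M)
        * (1 + |((((t' : ℕ) : ℤ) + g : ℤ) : ℝ)| / M))) with hD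
  set E := (1 + M / max |((((s : ℕ) : ℤ) - (((t' : ℕ) : ℤ) + g) : ℤ) : ℝ)| 1) with hE
  have q1 : 1 ≤ 1 / dst s t := one_le_inv_dst _ _
  have q2 : (1 : ℝ) ≤ 1 + M / max |((((s : ℕ) : ℤ) - (((t : ℕ) : ℤ) + c) : ℤ) : ℝ)| 1 := by
    have : 0 ≤ (M : ℝ) / max |((((s : ℕ) : ℤ) - (((t : ℕ) : ℤ) + c) : ℤ) : ℝ)| 1 := by positivity
    linarith
  have q3 : (1 : ℝ) ≤ 1 + |((((t : ℕ) : ℤ) + c : ℤ) : ℝ)| / M := by
    have : 0 ≤ |((((t : ℕ) : ℤ) + c : ℤ) : ℝ)| / M := by positivity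
    linarith
  have q4 : (1 : ℝ) ≤ 1 + |((((t' : ℕ) : ℤ) + g : ℤ) : ℝ)| / M := by
    have : 0 ≤ |((((t' : ℕ) : ℤ) + g : ℤ) : ℝ)| / M := by positivity
    linarith
  have q34 := one_le_mul_of_one_le_of_one_le q3 q4
  have q234 := one_le_mul_of_one_le_of_one_le q2 q34
  have hD1 : 1 ≤ D := one_le_mul_of_one_le_of_one_le q1 q234
  have hDge : (1 + M / max |((((s : ℕ) : ℤ) - (((t : ℕ) : ℤ) + c) : ℤ) : ℝ)| 1) ≤ D := by
    have r1 : (1 + M / max |((((s : ℕ) : ℤ) - (((t : ℕ) : ℤ) + c) : ℤ) : ℝ)| 1)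
      ≤ (1 + M / max |((((s : ℕ) : ℤ) - (((t : ℕ) : ℤ) + c) : ℤ) : ℝ)| 1)
      * ((1 + |((((t : ℕ) : ℤ) + c : ℤ) : ℝ)| / M)
        * (1 + |((((t' : ℕ) : ℤ) + g : ℤ) : ℝ)| / M)) := le_mul_of_one_le_right (by linarith) q34
    exact r1.trans (le_mul_of_one_le_left (by linarith) q1)
  have hE1 : 1 ≤ E := by
    have : 0 ≤ (M : ℝ) / max |((((s : ℕ) : ℤ) - (((t' : ℕ) : ℤ) + g) : ℤ) : ℝ)| 1 := by positivity
    rw [hE]; linarith
  have hDE : 1 ≤ D * E := one_le_mul_of_one_le_of_one_le hD1 hE1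
  by_cases h1 : ((s : ℕ) : ℤ) = ((t' : ℕ) : ℤ) + g
  · rw [if_pos h1, sub_zero]
    have hEM : (M : ℝ) ≤ E := by
      rw [hE, h1, sub_self, Int.cast_zero, abs_zero, max_eq_right (by norm_num : (0 : ℝ) ≤ 1),
        div_one]
      linarith
    have h2 : 1 ≤ D * E * δ := by
      have h3 : (M : ℝ) ≤ D * E := hEM.trans (le_mul_of_one_le_left (by linarith) hD1)
      have h4 := mul_le_mul_of_nonneg_right h3 hδ.le
      linarith
    have e3 : 10 * (D * E) * δ = 10 * (D * E * δ) := by ring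
    rw [e3]
    linarith
  · rw [if_neg h1]
    by_cases h2 : ((s : ℕ) : ℤ) = ((t : ℕ) : ℤ) + c
    · -- the height of `F` is `s`
      have e0 : ((((t : ℕ) : ℤ) + c : ℤ) : ℝ) / M - ht s = 0 := by
        rw [← h2]
        unfold ht
        push_cast
        ring
      rw [e0, zero_div, mul_zero, add_zero]
      have hDM : (M : ℝ) ≤ D := by
        refine le_trans ?_ hDge
        rw [h2, sub_self, Int.cast_zero, abs_zero, max_eq_right (by norm_num : (0 : ℝ) ≤ 1),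
          div_one]
        linarith
      have h3 : 1 ≤ D * E * δ := by
        have h3 : (M : ℝ) ≤ D * E := hDM.trans (le_mul_of_one_le_right (by linarith) hE1)
        have h4 := mul_le_mul_of_nonneg_right h3 hδ.le
        linarith
      have hA0 : |X + ht s * V| ≤ 2 := by
        have h5 : |ht s * V| ≤ 1 := by
          rw [abs_mul]
          exact mul_le_one₀ (ht_mem s) (abs_nonneg _) hV
        exact (abs_add_le _ _).trans (by linarith)
      have e4 : F - A' = F - (X + ht s * V) + ((X + ht s * V) - A') := by ring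
      have h6 : |F - A'| ≤ 5 := by
        rw [e4]
        have g1 := abs_add_le (F - (X + ht s * V)) ((X + ht s * V) - A')
        have g2 := abs_sub F (X + ht s * V)
        linarith
      have e3 : 10 * (D * E) * δ = 10 * (D * E * δ) := by ring
      rw [e3]
      linarith
    · rw [if_neg h2] at h
      set ρ := ((((t : ℕ) : ℤ) + c : ℤ) : ℝ) / M - ht s with hρ
      set τ := ((((t' : ℕ) : ℤ) + g : ℤ) : ℝ) / M - ht s with hτ
      have eM : ∀ z : ℤ, (z : ℝ) / M - ht s = ((z - ((s : ℕ) : ℤ) : ℤ) : ℝ) / M := by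
        intro z
        unfold ht
        push_cast
        ring
      have hρ0 : ρ ≠ 0 := by
        rw [hρ, eM]
        refine div_ne_zero ?_ hM0.ne'
        have : ((t : ℕ) : ℤ) + c - ((s : ℕ) : ℤ) ≠ 0 := fun h => h2 (by linarith)
        exact_mod_cast this
      have hτi : ((t' : ℕ) : ℤ) + g - ((s : ℕ) : ℤ) ≠ 0 := fun h => h1 (by linarith)
      have hτ0 : τ ≠ 0 := by
        rw [hτ, eM]
        refine div_ne_zero ?_ hM0.ne'
        exact_mod_cast hτi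
      have e1 : ((((t : ℕ) : ℤ) + c : ℤ) : ℝ) / M - ((((t' : ℕ) : ℤ) + g : ℤ) : ℝ) / M = ρ - τ := by
        rw [hρ, hτ]; ring
      rw [e1] at h
      have e2 : F - (A' + (W' - A') * (ρ / τ)) = (ρ / τ) *
          (-((X + ht t' * V + (g : ℝ) / M * W) - ((ρ - τ) / ρ * A' + τ / ρ * F))
            + ((X + ht t' * V + (g : ℝ) / M * W) - W')) := by
        field_simp
        ring
      rw [e2, abs_mul]
      have h5 : |ρ / τ| ≤ E := by
        rw [abs_div]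
        have h6 : |τ| = |((((s : ℕ) : ℤ) - (((t' : ℕ) : ℤ) + g) : ℤ) : ℝ)| / M := by
          rw [hτ, eM, abs_div, abs_of_pos hM0, ← abs_neg, ← Int.cast_neg]
          congr 3
          ring
        have h7 : 1 ≤ |((((s : ℕ) : ℤ) - (((t' : ℕ) : ℤ) + g) : ℤ) : ℝ)| := by
          have : ((s : ℕ) : ℤ) - (((t' : ℕ) : ℤ) + g) ≠ 0 := sub_ne_zero.2 h1
          exact_mod_cast Int.one_le_abs this
        rw [h6, hE, max_eq_left h7, div_div_eq_mul_div]
        have h8 : |ρ| * M / |((((s : ℕ) : ℤ) - (((t' : ℕ) : ℤ) + g) : ℤ) : ℝ)|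
            ≤ M / |((((s : ℕ) : ℤ) - (((t' : ℕ) : ℤ) + g) : ℤ) : ℝ)| := by
          refine div_le_div_of_nonneg_right ?_ (by positivity)
          exact mul_le_of_le_one_left hM0.le hr
        linarith
      have h9 : |-((X + ht t' * V + (g : ℝ) / M * W) - ((ρ - τ) / ρ * A' + τ / ρ * F))
            + ((X + ht t' * V + (g : ℝ) / M * W) - W')| ≤ 10 * D * δ := by
        refine (abs_add_le _ _).trans ?_
        rw [abs_neg]
        have : δ ≤ D * δ := le_mul_of_one_le_left hδ.le hD1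
        linarith
      calc _ ≤ E * (10 * D * δ) := mul_le_mul h5 h9 (abs_nonneg _) (by linarith)
        _ = _ := by ring

theorem dst_comm (s t : Fin M) : dst s t = dst t s := by
  unfold dst
  rw [abs_sub_comm]

theorem ld_comm (s t : Fin M) : ld s t = ld t s := by
  unfold ld
  rw [dst_comm]

/-- all the losses -/
theorem loss (r s t t' : Fin M) :
    ld s t + dn M (((s : ℕ) : ℤ) - (((t : ℕ) : ℤ) + (((r : ℕ) : ℤ) - ((t : ℕ) : ℤ))))
      + up M (((t : ℕ) : ℤ) + (((r : ℕ) : ℤ) - ((t : ℕ) : ℤ)))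
      + up M (((t' : ℕ) : ℤ) + mv (((r : ℕ) : ℤ) - ((t : ℕ) : ℤ)) s t t')
      + dn M (((s : ℕ) : ℤ) - (((t' : ℕ) : ℤ) + mv (((r : ℕ) : ℤ) - ((t : ℕ) : ℤ)) s t t'))
    ≤ 2 * ld s t + 2 * ld r s + ld s t' + 6 := by
  have hM1 := one_le_M s
  have hM0 : (0 : ℝ) < M := by linarith
  have h1 := dn_sub_mv r s t t'
  have h2 : dn M (((s : ℕ) : ℤ) - (((t : ℕ) : ℤ) + (((r : ℕ) : ℤ) - ((t : ℕ) : ℤ))))
      ≤ ld r s + Real.log 2 := by
    have e : (((s : ℕ) : ℤ) - (((t : ℕ) : ℤ) + (((r : ℕ) : ℤ) - ((t : ℕ) : ℤ))))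
        = ((s : ℕ) : ℤ) - ((r : ℕ) : ℤ) := by ring
    rw [e, ld_comm r s]
    exact dn_sub s r
  have h3 : up M (((t : ℕ) : ℤ) + (((r : ℕ) : ℤ) - ((t : ℕ) : ℤ))) ≤ Real.log 2 := by
    have e : ((t : ℕ) : ℤ) + (((r : ℕ) : ℤ) - ((t : ℕ) : ℤ)) = ((r : ℕ) : ℤ) := by ring
    rw [e]
    unfold up
    refine Real.log_le_log (by positivity) ?_
    have h5 : |(((r : ℕ) : ℤ) : ℝ)| / M ≤ 1 := by
      rw [div_le_one hM0]
      push_cast
      rw [abs_of_nonneg (Nat.cast_nonneg _)]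
      exact_mod_cast r.2.le
    linarith
  have h4 : up M (((t' : ℕ) : ℤ) + mv (((r : ℕ) : ℤ) - ((t : ℕ) : ℤ)) s t t')
      ≤ ld s t + (2 * Real.log 2 + Real.log 4) := by
    have h5 := up_mv (((r : ℕ) : ℤ) - ((t : ℕ) : ℤ)) s t t'
    have h6 := up_sub r t
    have h7 : up M (((t' : ℕ) : ℤ) + mv (((r : ℕ) : ℤ) - ((t : ℕ) : ℤ)) s t t')
        ≤ up M (mv (((r : ℕ) : ℤ) - ((t : ℕ) : ℤ)) s t t') + Real.log 2 := by
      unfold up
      rw [← Real.log_mul (by positivity) (by norm_num)]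
      refine Real.log_le_log (by positivity) ?_
      set g : ℤ := mv (((r : ℕ) : ℤ) - ((t : ℕ) : ℤ)) s t t'
      have h8 : |((((t' : ℕ) : ℤ) + g : ℤ) : ℝ)| ≤ M + |(g : ℝ)| := by
        push_cast
        refine (abs_add_le _ _).trans ?_
        have h9 : |((t' : ℕ) : ℝ)| ≤ M := by
          rw [abs_of_nonneg (Nat.cast_nonneg _)]
          exact_mod_cast t'.2.le
        linarith
      have h10 : |((((t' : ℕ) : ℤ) + g : ℤ) : ℝ)| / M ≤ 1 + |(g : ℝ)| / M := by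
        rw [div_le_iff₀ hM0, add_mul, div_mul_cancel₀ _ hM0.ne']
        linarith
      have h11 : 0 ≤ |(g : ℝ)| / M := by positivity
      linarith
    linarith
  have l2 := log2_le
  have l3 := log3_le
  have l4 := log4_le
  linarith

end real

section

variable {Ω : Type} [Fintype Ω] {p : Ω → ℝ} {m M : ℕ} {L : Type} {x v : L → Fin m → ℝ} {δ : ℝ}

/-- the point of `l2` at height `R` from the point of `l` at height `s` and the form
`(point of l at t') + (mv (R - t) s t t' / M) v(l2)`, and the three heights; `t, t'` are not known -/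
theorem CE_back (hp : IsProb p) (hδ : 0 < δ) (hδ1 : δ ≤ 1) (hM : 1 ≤ δ * M)
    (hx : ∀ l i, |x l i| ≤ 1) (hv : ∀ l i, |v l i| ≤ 1)
    (r : Setoid Ω) (l l2 : Ω → L) (R s t t' : Ω → Fin M)
    (hlink : ∀ ω, 0 < p ω → cell δ (pnt x v (l ω) (t ω)) = cell δ (pnt x v (l2 ω) (t ω)))
    (hm : ∀ ω ω', 0 < p ω → 0 < p ω' → r ω ω' → s ω = s ω' ∧ R ω = R ω' ∧
      ((t' ω : ℕ) : ℤ) + mv (((R ω : ℕ) : ℤ) - ((t ω : ℕ) : ℤ)) (s ω) (t ω) (t' ω)
        = ((t' ω' : ℕ) : ℤ) + mv (((R ω' : ℕ) : ℤ) - ((t ω' : ℕ) : ℤ)) (s ω') (t ω') (t' ω') ∧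
      cell δ (pnt x v (l ω) (s ω)) = cell δ (pnt x v (l ω') (s ω')) ∧
      cell δ (frm x v (l ω) (t' ω)
          (mv (((R ω : ℕ) : ℤ) - ((t ω : ℕ) : ℤ)) (s ω) (t ω) (t' ω)) (v (l2 ω)))
        = cell δ (frm x v (l ω') (t' ω')
          (mv (((R ω' : ℕ) : ℤ) - ((t ω' : ℕ) : ℤ)) (s ω') (t ω') (t' ω')) (v (l2 ω')))) :
    CE p (Setoid.ker (fun ω => cell δ (pnt x v (l2 ω) (R ω)))) r
      ≤ m * (4 * Ex p (fun ω => ld (s ω) (t ω)) + 4 * Ex p (fun ω => ld (R ω) (s ω))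
        + 2 * Ex p (fun ω => ld (s ω) (t' ω)) + 23) := by
  classical
  set c : Ω → ℤ := fun ω => ((R ω : ℕ) : ℤ) - ((t ω : ℕ) : ℤ) with hc
  set D : Ω → ℝ := fun ω => ((1 / dst (s ω) (t ω)) *
    ((1 + M / max |((((s ω : ℕ) : ℤ) - (((t ω : ℕ) : ℤ) + c ω) : ℤ) : ℝ)| 1)
      * ((1 + |((((t ω : ℕ) : ℤ) + c ω : ℤ) : ℝ)| / M)
        * (1 + |((((t' ω : ℕ) : ℤ) + mv (c ω) (s ω) (t ω) (t' ω) : ℤ) : ℝ)| / M))))
    * (1 + M / max |((((s ω : ℕ) : ℤ)
        - (((t' ω : ℕ) : ℤ) + mv (c ω) (s ω) (t ω) (t' ω)) : ℤ) : ℝ)| 1) with hDdef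
  have h1 : ∀ ω, 1 ≤ 1 / dst (s ω) (t ω) := fun ω => one_le_inv_dst _ _
  have h2 : ∀ ω, (1 : ℝ) ≤ 1 + M / max |((((s ω : ℕ) : ℤ) - (((t ω : ℕ) : ℤ) + c ω) : ℤ) : ℝ)| 1 := by
    intro ω
    have : 0 ≤ (M : ℝ) / max |((((s ω : ℕ) : ℤ) - (((t ω : ℕ) : ℤ) + c ω) : ℤ) : ℝ)| 1 := by
      positivity
    linarith
  have h3 : ∀ ω, (1 : ℝ) ≤ 1 + |((((t ω : ℕ) : ℤ) + c ω : ℤ) : ℝ)| / M := by
    intro ω
    have : 0 ≤ |((((t ω : ℕ) : ℤ) + c ω : ℤ) : ℝ)| / M := by positivity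
    linarith
  have h4 : ∀ ω, (1 : ℝ) ≤ 1 + |((((t' ω : ℕ) : ℤ) + mv (c ω) (s ω) (t ω) (t' ω) : ℤ) : ℝ)| / M := by
    intro ω
    have : 0 ≤ |((((t' ω : ℕ) : ℤ) + mv (c ω) (s ω) (t ω) (t' ω) : ℤ) : ℝ)| / M := by positivity
    linarith
  have h5 : ∀ ω, (1 : ℝ) ≤ 1 + M / max |((((s ω : ℕ) : ℤ)
        - (((t' ω : ℕ) : ℤ) + mv (c ω) (s ω) (t ω) (t' ω)) : ℤ) : ℝ)| 1 := by
    intro ω
    have : 0 ≤ (M : ℝ) / max |((((s ω : ℕ) : ℤ)
        - (((t' ω : ℕ) : ℤ) + mv (c ω) (s ω) (t ω) (t' ω)) : ℤ) : ℝ)| 1 := by positivity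
    linarith
  have hD1 : ∀ ω, 1 ≤ D ω := fun ω =>
    one_le_mul_of_one_le_of_one_le (one_le_mul_of_one_le_of_one_le (h1 ω)
      (one_le_mul_of_one_le_of_one_le (h2 ω) (one_le_mul_of_one_le_of_one_le (h3 ω) (h4 ω)))) (h5 ω)
  have efrm : ∀ ω i, frm x v (l2 ω) (t ω) (c ω) (v (l2 ω)) i = pnt x v (l2 ω) (R ω) i := by
    intro ω i
    simp only [hc]
    unfold frm pnt ht
    push_cast
    ring
  have h := CE_heavy_cell hδ hp r
    (fun ω => pnt x v (l2 ω) (R ω))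
    (fun ω i => if ((s ω : ℕ) : ℤ) = ((t' ω : ℕ) : ℤ) + mv (c ω) (s ω) (t ω) (t' ω) then 0 else
        (δ * (cell δ (pnt x v (l ω) (s ω)) i : ℤ))
        + ((δ * (cell δ (frm x v (l ω) (t' ω) (mv (c ω) (s ω) (t ω) (t' ω)) (v (l2 ω))) i : ℤ))
          - (δ * (cell δ (pnt x v (l ω) (s ω)) i : ℤ)))
          * ((((((t ω : ℕ) : ℤ) + c ω : ℤ) : ℝ) / M - ht (s ω))
          / (((((t' ω : ℕ) : ℤ) + mv (c ω) (s ω) (t ω) (t' ω) : ℤ) : ℝ) / M - ht (s ω))))
    D (a := 10) (by norm_num) hD1 ?_ ?_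
  · refine h.trans ?_
    refine mul_le_mul_of_nonneg_left ?_ (Nat.cast_nonneg m)
    have e : Ex p (fun ω => Real.log (D ω)) ≤ Ex p (fun ω => 2 * ld (s ω) (t ω)
        + (2 * ld (R ω) (s ω) + (ld (s ω) (t' ω) + 6))) := by
      refine Ex_mono hp fun ω => ?_
      have g := loss (R ω) (s ω) (t ω) (t' ω)
      have p1 := lt_of_lt_of_le one_pos (h1 ω)
      have p2 := lt_of_lt_of_le one_pos (h2 ω)
      have p3 := lt_of_lt_of_le one_pos (h3 ω)
      have p4 := lt_of_lt_of_le one_pos (h4 ω)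
      have p5 := lt_of_lt_of_le one_pos (h5 ω)
      have e1 : Real.log (D ω) = ld (s ω) (t ω)
          + dn M (((s ω : ℕ) : ℤ) - (((t ω : ℕ) : ℤ) + c ω))
          + up M (((t ω : ℕ) : ℤ) + c ω)
          + up M (((t' ω : ℕ) : ℤ) + mv (c ω) (s ω) (t ω) (t' ω))
          + dn M (((s ω : ℕ) : ℤ) - (((t' ω : ℕ) : ℤ) + mv (c ω) (s ω) (t ω) (t' ω))) := by
        rw [hDdef]
        simp only
        rw [Real.log_mul (mul_pos p1 (mul_pos p2 (mul_pos p3 p4))).ne' p5.ne',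
          Real.log_mul p1.ne' (mul_pos p2 (mul_pos p3 p4)).ne', Real.log_mul p2.ne'
          (mul_pos p3 p4).ne', Real.log_mul p3.ne' p4.ne']
        unfold ld dn up
        ring
      show Real.log (D ω) ≤ 2 * ld (s ω) (t ω) + (2 * ld (R ω) (s ω) + (ld (s ω) (t' ω) + 6))
      rw [e1]
      simp only [hc]
      linarith
    rw [Ex_add, Ex_add, Ex_add, Ex_smul, Ex_smul, Ex_const hp] at e
    have h10 : 2 * Real.log (10 + 1) + Real.log 27 ≤ 11 := by
      have l27 : Real.log 27 = 3 * Real.log 3 := by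
        rw [show (27 : ℝ) = 3 ^ 3 by norm_num, Real.log_pow]; norm_num
      have l11 : Real.log (10 + 1) = Real.log 11 := by norm_num
      rw [l27, l11]
      linarith [log3_le, log11_le]
    linarith
  · intro ω ω' h1 h2 h3
    obtain ⟨e1, e2, e3, e4, e5⟩ := hm ω ω' h1 h2 h3
    funext i
    have e6 : ((t ω : ℕ) : ℤ) + c ω = ((t ω' : ℕ) : ℤ) + c ω' := by
      simp only [hc]
      rw [e2]
      ring
    simp only [hc] at e6 ⊢
    rw [e5, e4, e3, e6, e1]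
  · intro ω h0 i
    have hJ := cell_link hδ (hlink ω h0) i
    have hA := cell_err hδ (pnt x v (l ω) (s ω)) i
    have hF := cell_err hδ (frm x v (l ω) (t' ω) (mv (c ω) (s ω) (t ω) (t' ω)) (v (l2 ω))) i
    rw [← efrm ω i]
    refine back_real hδ hδ1 hM (s ω) (t ω) (t' ω) (c ω) (hx (l ω) i) (hv (l ω) i) (hx (l2 ω) i)
      (hv (l2 ω) i) (hv (l2 ω) i) ?_ hJ hA hF ?_
    · have e := efrm ω i
      unfold frm at e
      rw [show x (l2 ω) i + ht (t ω) * v (l2 ω) i = pnt x v (l2 ω) (t ω) i from rfl, e]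
      unfold pnt
      have h5 : |ht (R ω) * v (l2 ω) i| ≤ 1 := by
        rw [abs_mul]
        exact mul_le_one₀ (ht_mem _) (abs_nonneg _) (hv _ _)
      exact (abs_add_le _ _).trans (by linarith [hx (l2 ω) i])
    · have e7 : ((((t ω : ℕ) : ℤ) + c ω : ℤ) : ℝ) / M = ht (R ω) := by
        simp only [hc]
        unfold ht
        push_cast
        ring
      rw [e7]
      exact ht_diff _ _

end

section

variable {m M : ℕ} {G : Geo m M} (S : PSys G)

open VH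

/-- deficit of a height -/
theorem deficit : 2 * (Real.log M + Real.log 5 - (S.eB - S.eL)) ≤ 5 * (S.κ + 1) := by
  have h := S.toSys.κ_nonneg
  have h5 := log5_le
  unfold Sys.κ at *
  linarith

theorem ld_aux (A A' : Finset VH) (i j : VH) (T' T : YY S.Ω → Fin M)
    (hi : VHY S i = Setoid.ker T') (hj : ∀ y y', VHY S j y y' → T y = T y') (hjA : j ∈ A)
    (hA' : A' = insert i A) (hd : S.eB - S.eL ≤ HH (pY S) (VHY S) A' - HH (pY S) (VHY S) A) :
    Ex (pY S) (fun y => ld (T' y) (T y)) ≤ 5 * (S.κ + 1) :=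
  (ld_le (hpY S) T' T hi hj hjA hA' hd).trans (deficit S)

/-- `S` is near uniform given all the heights -/
theorem htS : S.eB - S.eL ≤ HH (pY S) (VHY S) {K, l0, l1, l2, T0, T1, R, b, b', VH.S}
    - HH (pY S) (VHY S) {K, l0, l1, l2, T0, T1, R, b, b'} := by
  have hb := baseH S
  have h1 := Helper75.KakHB.Bsm hb {K, l0, l1, T0} {K, l0, l2, T1} {K, l0, l1, l2, T0, T1} {K, l0}
    (by decide +kernel) (by decide +kernel)
  have aR := Helper75.KakHB.Binc hb {K, l1} {K, l1, R} {K, l0, l1, l2, T0, T1}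
    {K, l0, l1, l2, T0, T1, R} (by decide +kernel) (by decide +kernel)
  have ab := Helper75.KakHB.Binc hb {K, l2} {K, l2, b} {K, l0, l1, l2, T0, T1, R}
    {K, l0, l1, l2, T0, T1, R, b} (by decide +kernel) (by decide +kernel)
  have ab' := Helper75.KakHB.Binc hb {K, l2} {K, l2, b'} {K, l0, l1, l2, T0, T1, R, b}
    {K, l0, l1, l2, T0, T1, R, b, b'} (by decide +kernel) (by decide +kernel)
  have mn1 := Helper75.KakHB.Bmn hb {K, l0, l1, l2, T0, T1, VH.S, R, b, b'}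
    {K, l0, l1, l2, T0, T1, R, b, b', VH.S} (by decide +kernel)
  linarith [hb.h010, hb.h021, hb.hL0, hb.tot, hb.h1R, hb.hL1, hb.h2b, hb.hL2, hb.h2b']

theorem ldS0 : Ex (pY S) (fun y => ld (S.T (dS y)) (S.T (d0 y))) ≤ 5 * (S.κ + 1) := by
  have h1 : VHY S VH.S = Setoid.ker (fun y => S.T (dS y)) := rfl
  have h2 : ∀ y y', VHY S VH.T0 y y' → (fun y => S.T (d0 y)) y = (fun y => S.T (d0 y)) y' :=
    fun _ _ h => h
  have h3 : VH.T0 ∈ ({K, l0, l1, l2, T0, T1, R, b, b'} : Finset VH) := by decide +kernel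
  have h4 : ({K, l0, l1, l2, T0, T1, R, b, b', VH.S} : Finset VH)
      = insert VH.S {K, l0, l1, l2, T0, T1, R, b, b'} := by decide +kernel
  exact ld_aux S _ _ _ _ _ _ h1 h2 h3 h4 (htS S)

theorem ldS1 : Ex (pY S) (fun y => ld (S.T (dS y)) (S.T (d1 y))) ≤ 5 * (S.κ + 1) := by
  have h1 : VHY S VH.S = Setoid.ker (fun y => S.T (dS y)) := rfl
  have h2 : ∀ y y', VHY S VH.T1 y y' → (fun y => S.T (d1 y)) y = (fun y => S.T (d1 y)) y' :=
    fun _ _ h => h
  have h3 : VH.T1 ∈ ({K, l0, l1, l2, T0, T1, R, b, b'} : Finset VH) := by decide +kernel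
  have h4 : ({K, l0, l1, l2, T0, T1, R, b, b', VH.S} : Finset VH)
      = insert VH.S {K, l0, l1, l2, T0, T1, R, b, b'} := by decide +kernel
  exact ld_aux S _ _ _ _ _ _ h1 h2 h3 h4 (htS S)

theorem ldSR : Ex (pY S) (fun y => ld (S.T (dS y)) (S.T (dR y))) ≤ 5 * (S.κ + 1) := by
  have h1 : VHY S VH.S = Setoid.ker (fun y => S.T (dS y)) := rfl
  have h2 : ∀ y y', VHY S VH.R y y' → (fun y => S.T (dR y)) y = (fun y => S.T (dR y)) y' :=
    fun _ _ h => h
  have h3 : VH.R ∈ ({K, l0, l1, l2, T0, T1, R, b, b'} : Finset VH) := by decide +kernel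
  have h4 : ({K, l0, l1, l2, T0, T1, R, b, b', VH.S} : Finset VH)
      = insert VH.S {K, l0, l1, l2, T0, T1, R, b, b'} := by decide +kernel
  exact ld_aux S _ _ _ _ _ _ h1 h2 h3 h4 (htS S)

theorem cost_c6 : HH (pY S) (VHY S) {PS, w, .S, R, tw, PR} - HH (pY S) (VHY S) {PS, w, .S, R, tw}
    ≤ 73 * m * (S.κ + 1) := by
  have hκ := S.toSys.κ_nonneg
  refine cost_le (VHY S) _ _ PR (by decide +kernel) _ fun r hr => ?_
  simp only [Finset.mem_insert, Finset.mem_singleton, forall_eq_or_imp, forall_eq, VH_PS,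
    VH_w, VH_S, VH_R, VH_tw] at hr
  have h := CE_back (hpY S) G.hδ G.hδ1 G.hM G.hx G.hv r
    (fun y => S.l (d0 y)) (fun y => S.l (S.σ (d0 y))) (fun y => S.T (dR y))
    (fun y => S.T (dS y)) (fun y => S.T (d0 y)) (fun y => S.T (d1 y))
    (fun y hy => (lk S hy hy).p0.symm)
    (fun y y' _ _ g => by
      obtain ⟨g1, g2, g3, g4, g5⟩ := hr y y' g
      exact ⟨g3, g4, g5, g1, g2⟩)
  refine (le_trans (le_of_eq rfl) h).trans ?_
  rw [show (fun y => ld (S.T (dR y)) (S.T (dS y))) = (fun y => ld (S.T (dS y)) (S.T (dR y))) from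
    funext fun y => ld_comm _ _]
  have hm0 : (0 : ℝ) ≤ m := Nat.cast_nonneg m
  rw [show 73 * (m : ℝ) * (S.κ + 1) = m * (73 * (S.κ + 1)) by ring]
  refine mul_le_mul_of_nonneg_left ?_ hm0
  linarith [ldS0 S, ldS1 S, ldSR S]

/-- cost `c6` in the form used by the assembly -/
theorem C6 (m : ℕ) : ∃ N : ℝ, 0 ≤ N ∧ ∀ (M : ℕ) (G : Geo m M) (S : PSys G),
    HH (pY S) (VHY S) {PS, w, .S, R, tw, PR} - HH (pY S) (VHY S) {PS, w, .S, R, tw}
      ≤ N * (S.κ + S.ι + ell M) := by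
  refine ⟨73 * m, by positivity, fun M G S => (cost_c6 S).trans ?_⟩
  have h1 := one_le_ell G
  have h2 := Helper75.KakHB.ι_nonneg S
  refine mul_le_mul_of_nonneg_left ?_ (by positivity)
  linarith

end

end Pool.Agent.Helper47.Kak
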